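import Pool.Agent.N208.AD.Dec
import Pool.Agent.N208.UR.Ex

set_option autoImplicit false
set_option linter.unusedSectionVars false

/-!
# The centralizer of a group which contains the periods
-/

open Module Function TensorProduct Matrix

noncomputable section

namespace Pool.Agent.N208.AD

open Pool.Agent.Y102 Pool.Agent.W516.DR Pool.Agent.H204R3.GP Pool.Agent.W516.KC
  Pool.Agent.H204R3.SP Pool.Agent.TH119.MX Pool.Agent.R917 Pool.Agent.N208.AM

variable {g : ℕ} {A : AbVar g} {s n : ℕ} {r : Fin s → ℕ} {B : Fin n → Ten A r} {w : Fin s → ℤ}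
  {P : Matrix (Fin n) (Fin n) ℂ} {H : Set (Matrix (Fin n) (Fin n) ℂ)}
  {Wt : Matrix (Fin n) (Fin n) ℚ}

/-- The rational matrix of an endomorphism. -/
def mv (X : Module.End ℚ A.H1) : Matrix (Fin (2 * g)) (Fin (2 * g)) ℚ :=
  LinearMap.toMatrix A.bas A.bas X

theorem mv_mul (X Y : Module.End ℚ A.H1) : mv (X * Y) = mv X * mv Y :=
  LinearMap.toMatrix_mul A.bas X Y

theorem mv_sub (X Y : Module.End ℚ A.H1) : mv (X - Y) = mv X - mv Y := map_sub _ _ _

theorem mv_add (X Y : Module.End ℚ A.H1) : mv (X + Y) = mv X + mv Y := map_add _ _ _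

theorem mv_zero : mv (0 : Module.End ℚ A.H1) = 0 := map_zero _

theorem mv_smul (c : ℚ) (X : Module.End ℚ A.H1) : mv (c • X) = c • mv X := map_smul _ _ _

theorem mv_inj {X Y : Module.End ℚ A.H1} (h : mv X = mv Y) : X = Y :=
  (LinearMap.toMatrix A.bas A.bas).injective h

theorem mv_surj (M : Matrix (Fin (2 * g)) (Fin (2 * g)) ℚ) :
    ∃ X : Module.End ℚ A.H1, mv X = M :=
  ⟨_, (LinearMap.toMatrix A.bas A.bas).apply_symm_apply M⟩

/-- The pair of the matrices of the actions on the abelian variety and on the motive. -/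
def pr (X : Module.End ℚ A.H1) (M : Matrix (Fin n) (Fin n) ℚ) :
    Matrix (Fin (2 * g)) (Fin (2 * g)) ℂ × Matrix (Fin n) (Fin n) ℂ := (cq (mv X), (cq M)ᵀ)

/-- The complex span of the pairs. -/
def GG (B : Fin n → Ten A r) (S : Submodule ℚ (Module.End ℚ A.H1)) :
    Submodule ℂ (Matrix (Fin (2 * g)) (Fin (2 * g)) ℂ × Matrix (Fin n) (Fin n) ℂ) :=
  Submodule.span ℂ {p | ∃ X ∈ S, ∃ M, Rel B X M ∧ p = pr X M}

theorem mem_GG {S : Submodule ℚ (Module.End ℚ A.H1)} {X : Module.End ℚ A.H1} (hX : X ∈ S)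
    {M : Matrix (Fin n) (Fin n) ℚ} (hM : Rel B X M) : pr X M ∈ GG B S :=
  Submodule.subset_span ⟨X, hX, M, hM, rfl⟩

theorem pr_br {X Y : Module.End ℚ A.H1} (M N : Matrix (Fin n) (Fin n) ℚ) :
    pr X M * pr Y N - pr Y N * pr X M = pr (X * Y - Y * X) (N * M - M * N) := by
  unfold pr
  rw [Prod.mk_mul_mk, Prod.mk_mul_mk, Prod.mk_sub_mk, mv_sub, mv_mul, mv_mul, cq_sub, cq_mul,
    cq_mul, cq_sub, cq_mul, cq_mul, Matrix.transpose_sub, Matrix.transpose_mul,
    Matrix.transpose_mul]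

theorem GG_br {S T U : Submodule ℚ (Module.End ℚ A.H1)}
    (h : ∀ X ∈ S, ∀ Y ∈ T, X * Y - Y * X ∈ U) :
    ∀ x ∈ GG B S, ∀ y ∈ GG B T, x * y - y * x ∈ GG B U := by
  intro x hx y hy
  induction hx using Submodule.span_induction with
  | mem x hx =>
    obtain ⟨X, hX, M, hM, rfl⟩ := hx
    induction hy using Submodule.span_induction with
    | mem y hy =>
      obtain ⟨Y, hY, N, hN, rfl⟩ := hy
      rw [pr_br]
      exact mem_GG (h X hX Y hY) (hM.br hN)
    | zero => rw [mul_zero, zero_mul, sub_zero]; exact Submodule.zero_mem _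
    | add a b _ _ ha hb =>
      have e : pr X M * (a + b) - (a + b) * pr X M =
          (pr X M * a - a * pr X M) + (pr X M * b - b * pr X M) := by
        rw [mul_add, add_mul]
        abel
      rw [e]
      exact Submodule.add_mem _ ha hb
    | smul c a _ ha =>
      rw [mul_smul_comm, smul_mul_assoc, ← smul_sub]
      exact Submodule.smul_mem _ c ha
  | zero => rw [mul_zero, zero_mul, sub_zero]; exact Submodule.zero_mem _
  | add a b _ _ ha hb =>
    have e : (a + b) * y - y * (a + b) = (a * y - y * a) + (b * y - y * b) := by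
      rw [mul_add, add_mul]
      abel
    rw [e]
    exact Submodule.add_mem _ ha hb
  | smul c a _ ha =>
    rw [mul_smul_comm, smul_mul_assoc, ← smul_sub]
    exact Submodule.smul_mem _ c ha

theorem cq_map {m : ℕ} (f : ℂ →ₗ[ℚ] ℚ) (M : Matrix (Fin m) (Fin m) ℚ) :
    (cq M).map f = f 1 • M := by
  ext i j
  change f ((M i j : ℚ) : ℂ) = f 1 * M i j
  have h2 : ((M i j : ℚ) : ℂ) = M i j • (1 : ℂ) := by rw [Rat.smul_def, mul_one]
  rw [h2, map_smul, smul_eq_mul, mul_comm]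

/-- The rational components of the elements of the span. -/
theorem GG_map {S : Submodule ℚ (Module.End ℚ A.H1)}
    {p : Matrix (Fin (2 * g)) (Fin (2 * g)) ℂ × Matrix (Fin n) (Fin n) ℂ} (hp : p ∈ GG B S)
    (f : ℂ →ₗ[ℚ] ℚ) : ∃ X ∈ S, ∃ M, Rel B X M ∧ mv X = p.1.map f ∧ Mᵀ = p.2.map f := by
  induction hp using Submodule.span_induction generalizing f with
  | mem p hp =>
    obtain ⟨X, hX, M, hM, rfl⟩ := hp
    refine ⟨f 1 • X, S.smul_mem _ hX, f 1 • M, hM.smul _, ?_, ?_⟩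
    · rw [mv_smul]
      exact (cq_map f (mv X)).symm
    · have h1 := cq_map f M
      rw [← h1]
      rfl
  | zero =>
    refine ⟨0, S.zero_mem, 0, Rel.zero, ?_, ?_⟩
    · rw [mv_zero]
      ext i j
      simp
    · ext i j
      simp
  | add a b _ _ ha hb =>
    obtain ⟨X, hX, M, hM, h1, h2⟩ := ha f
    obtain ⟨Y, hY, N, hN, h3, h4⟩ := hb f
    refine ⟨X + Y, S.add_mem hX hY, M + N, hM.add hN, ?_, ?_⟩
    · rw [mv_add, h1, h3]
      ext i j
      simp
    · rw [Matrix.transpose_add, h2, h4]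
      ext i j
      simp
  | smul c a _ ha =>
    obtain ⟨X, hX, M, hM, h1, h2⟩ := ha (f.comp (LinearMap.mulLeft ℚ c))
    refine ⟨X, hX, M, hM, ?_, ?_⟩
    · rw [h1]
      ext i j
      simp
    · rw [h2]
      ext i j
      simp

theorem eq_zero_of_map {m : ℕ} {M : Matrix (Fin m) (Fin m) ℂ}
    (h : ∀ f : ℂ →ₗ[ℚ] ℚ, M.map f = 0) : M = 0 := by
  ext i j
  refine (Module.forall_dual_apply_eq_zero_iff ℚ (M i j)).1 fun f => ?_
  exact congrFun (congrFun (h f) i) j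

/-- The second component is determined by the first. -/
theorem GG_fst (hB : LinearIndependent ℚ B) {S : Submodule ℚ (Module.End ℚ A.H1)}
    {p : Matrix (Fin (2 * g)) (Fin (2 * g)) ℂ × Matrix (Fin n) (Fin n) ℂ} (hp : p ∈ GG B S)
    (h : p.1 = 0) : p.2 = 0 := by
  refine eq_zero_of_map fun f => ?_
  obtain ⟨X, hX, M, hM, h1, h2⟩ := GG_map hp f
  have h3 : mv X = mv (0 : Module.End ℚ A.H1) := by
    rw [h1, h, mv_zero]
    ext i j
    simp
  rw [mv_inj h3] at hM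
  rw [← h2, hM.uniq hB Rel.zero, Matrix.transpose_zero]

/-- In the complement of the kernel the first component is determined by the second. -/
theorem GG_snd (h : Mot w B P)
    {p : Matrix (Fin (2 * g)) (Fin (2 * g)) ℂ × Matrix (Fin n) (Fin n) ℂ}
    (hp : p ∈ GG B (perpI A (kerM B))) (h0 : p.2 = 0) : p.1 = 0 := by
  refine eq_zero_of_map fun f => ?_
  obtain ⟨X, hX, M, hM, h1, h2⟩ := GG_map hp f
  have h3 : M = 0 := by
    rw [← Matrix.transpose_transpose M, h2, h0]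
    ext i j
    simp
  rw [h3] at hM
  have hk : kerM B ≤ A.NA := fun X hX => hX.1
  have h4 := perpI_inf hk (kerM_ideal h) ⟨hX.1, hM⟩ hX
  rw [← h1, h4, mv_zero]

/-- `y` lifts `x`. -/
structure Lift (B : Fin n → Ten A r) (y : GL (Fin (2 * g)) ℂ) (x : GL (Fin n) ℂ) : Prop where
  ker : ∀ K ∈ kerM B, (y : Matrix (Fin (2 * g)) (Fin (2 * g)) ℂ) * cq (mv K) = cq (mv K) * y
  conj : ∀ p ∈ GG B (perpI A (kerM B)),
    ((y : Matrix (Fin (2 * g)) (Fin (2 * g)) ℂ), (x : Matrix (Fin n) (Fin n) ℂ)) * p *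
      (((y⁻¹ : GL (Fin (2 * g)) ℂ) : Matrix (Fin (2 * g)) (Fin (2 * g)) ℂ),
        ((x⁻¹ : GL (Fin n) ℂ) : Matrix (Fin n) (Fin n) ℂ)) ∈ GG B (perpI A (kerM B))

/-- The group of the elements which lift. -/
def LG (B : Fin n → Ten A r) : Subgroup (GL (Fin n) ℂ) where
  carrier := {x | ∃ y, Lift B y x ∧ Lift B y⁻¹ x⁻¹}
  one_mem' := by
    have h : Lift B (1 : GL (Fin (2 * g)) ℂ) (1 : GL (Fin n) ℂ) := by
      refine ⟨fun K _ => by rw [Units.val_one, one_mul, mul_one], fun p hp => ?_⟩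
      rw [inv_one, inv_one, Units.val_one, Units.val_one, ← Prod.one_eq_mk, one_mul, mul_one]
      exact hp
    exact ⟨1, h, by rwa [inv_one, inv_one]⟩
  mul_mem' := by
    have key : ∀ {y y' : GL (Fin (2 * g)) ℂ} {x x' : GL (Fin n) ℂ}, Lift B y x → Lift B y' x' →
        Lift B (y * y') (x * x') := by
      intro y y' x x' h h'
      refine ⟨fun K hK => ?_, fun p hp => ?_⟩
      · rw [Units.val_mul, mul_assoc, h'.ker K hK, ← mul_assoc, h.ker K hK, mul_assoc]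
      · have h1 := h.conj _ (h'.conj p hp)
        rw [_root_.mul_inv_rev, _root_.mul_inv_rev, Units.val_mul, Units.val_mul, Units.val_mul,
          Units.val_mul, ← Prod.mk_mul_mk, ← Prod.mk_mul_mk]
        simpa only [mul_assoc] using h1
    rintro x x' ⟨y, h1, h2⟩ ⟨y', h1', h2'⟩
    refine ⟨y * y', key h1 h1', ?_⟩
    rw [_root_.mul_inv_rev, _root_.mul_inv_rev]
    exact key h2' h2
  inv_mem' := by
    rintro x ⟨y, h1, h2⟩
    exact ⟨y⁻¹, h2, by rwa [inv_inv, inv_inv]⟩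

theorem GG_le {S T : Submodule ℚ (Module.End ℚ A.H1)} (h : S ≤ T) : GG B S ≤ GG B T :=
  Submodule.span_mono fun _ ⟨X, hX, M, hM, e⟩ => ⟨X, h hX, M, hM, e⟩

theorem perpI_le (𝔨 : Submodule ℚ (Module.End ℚ A.H1)) : perpI A 𝔨 ≤ A.NA := fun _ h => h.1

/-- Every complex combination of the matrices has a lift. -/
theorem exists_lift (h : Mot w B P) {Z : Matrix (Fin n) (Fin n) ℂ}
    (hZ : Z ∈ Submodule.span ℂ {y | ∃ X ∈ A.NA, ∃ M, Rel B X M ∧ y = (cq M)ᵀ}) :
    ∃ Y, (Y, Z) ∈ GG B (perpI A (kerM B)) := by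
  have hk : kerM B ≤ A.NA := fun X hX => hX.1
  induction hZ using Submodule.span_induction with
  | mem Z hZ =>
    obtain ⟨X, hX, M, hM, rfl⟩ := hZ
    obtain ⟨K, hK, X', hX', rfl⟩ := perpI_dec hk (kerM_ideal h) hX
    obtain ⟨M', hM'⟩ := h.st X' (perpI_le _ hX')
    have h1 := (hK.2.add hM').uniq h.li hM
    rw [zero_add] at h1
    rw [← h1]
    exact ⟨_, mem_GG hX' hM'⟩
  | zero => exact ⟨0, Submodule.zero_mem _⟩
  | add a b _ _ ha hb =>
    obtain ⟨Y, hY⟩ := ha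
    obtain ⟨Y', hY'⟩ := hb
    exact ⟨Y + Y', Submodule.add_mem _ hY hY'⟩
  | smul c a _ ha =>
    obtain ⟨Y, hY⟩ := ha
    exact ⟨c • Y, Submodule.smul_mem _ c hY⟩

theorem exp_conj_prod {E F : Type} [NormedRing E] [NormedAlgebra ℂ E] [CompleteSpace E]
    [FiniteDimensional ℂ E] [NormedRing F] [NormedAlgebra ℂ F] [CompleteSpace F]
    [FiniteDimensional ℂ F] {S : Submodule ℂ (E × F)} {x : E × F}
    (hS : ∀ q ∈ S, x * q - q * x ∈ S) {p : E × F} (hp : p ∈ S) :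
    (NormedSpace.exp x.1, NormedSpace.exp x.2) * p *
      (NormedSpace.exp (-x.1), NormedSpace.exp (-x.2)) ∈ S := by
  have h1 := Pool.Agent.N208.UR.exp_conj_sub_gen (E := E × F) hS (hS p hp)
  have h2 := Submodule.add_mem _ h1 hp
  rw [sub_add_cancel] at h2
  let _ : NormedAlgebra ℚ E := NormedAlgebra.restrictScalars ℚ ℂ E
  let _ : NormedAlgebra ℚ F := NormedAlgebra.restrictScalars ℚ ℂ F
  have e1 : ∀ y : E × F, NormedSpace.exp y = (NormedSpace.exp y.1, NormedSpace.exp y.2) :=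
    fun y => Prod.ext (Prod.fst_exp y) (Prod.snd_exp y)
  rw [e1, e1] at h2
  exact h2

section norms

attribute [local instance] Matrix.linftyOpNormedRing Matrix.linftyOpNormedAlgebra

theorem exp_conj_prodM {a b : ℕ} {S : Submodule ℂ (Matrix (Fin a) (Fin a) ℂ ×
    Matrix (Fin b) (Fin b) ℂ)} {Y : Matrix (Fin a) (Fin a) ℂ} {Z : Matrix (Fin b) (Fin b) ℂ}
    (hS : ∀ q ∈ S, (Y, Z) * q - q * (Y, Z) ∈ S) {p : Matrix (Fin a) (Fin a) ℂ ×
    Matrix (Fin b) (Fin b) ℂ} (hp : p ∈ S) :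
    (NormedSpace.exp Y, NormedSpace.exp Z) * p * (NormedSpace.exp (-Y), NormedSpace.exp (-Z)) ∈ S :=
  exp_conj_prod (E := Matrix (Fin a) (Fin a) ℂ) (F := Matrix (Fin b) (Fin b) ℂ) (x := (Y, Z))
    hS hp

end norms

theorem exp_lift (h : Mot w B P) {Y : Matrix (Fin (2 * g)) (Fin (2 * g)) ℂ}
    {Z : Matrix (Fin n) (Fin n) ℂ} (hYZ : (Y, Z) ∈ GG B (perpI A (kerM B))) :
    Lift B (eG Y) (eG Z) := by
  have hk : kerM B ≤ A.NA := fun X hX => hX.1
  refine ⟨fun K hK => comm_exp ?_, fun p hp => ?_⟩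
  · have h1 : ∀ q ∈ GG B (perpI A (kerM B)), q.1 * cq (mv K) = cq (mv K) * q.1 := by
      intro q hq
      induction hq using Submodule.span_induction with
      | mem q hq =>
        obtain ⟨X, hX, M, hM, rfl⟩ := hq
        change cq (mv X) * cq (mv K) = cq (mv K) * cq (mv X)
        rw [← cq_mul, ← cq_mul, ← mv_mul, ← mv_mul, perpI_comm hk (kerM_ideal h) hX hK]
      | zero => rw [Prod.fst_zero, zero_mul, mul_zero]
      | add a b _ _ ha hb => rw [Prod.fst_add, add_mul, mul_add, ha, hb]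
      | smul c a _ ha => rw [Prod.smul_fst, smul_mul_assoc, mul_smul_comm, ha]
    exact h1 _ hYZ
  · have hbr : ∀ q ∈ GG B (perpI A (kerM B)), (Y, Z) * q - q * (Y, Z) ∈
        GG B (perpI A (kerM B)) := fun q hq =>
      GG_br (fun X hX Y hY => perpI_ideal (kerM_ideal h) X (perpI_le _ hX) Y hY) _ hYZ _ hq
    exact exp_conj_prodM hbr hp

theorem neg_eG {a : ℕ} (Y : Matrix (Fin a) (Fin a) ℂ) : (eG Y)⁻¹ = eG (-Y) := by
  apply Units.ext
  rw [eG_inv, eG_val]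

theorem eG_mem_LG (h : Mot w B P) {Z : Matrix (Fin n) (Fin n) ℂ}
    (hZ : Z ∈ Submodule.span ℂ {y | ∃ X ∈ A.NA, ∃ M, Rel B X M ∧ y = (cq M)ᵀ}) :
    eG Z ∈ LG B := by
  obtain ⟨Y, hY⟩ := exists_lift h hZ
  refine ⟨eG Y, exp_lift h hY, ?_⟩
  rw [neg_eG, neg_eG]
  exact exp_lift h (Submodule.neg_mem _ hY)

/-- The elements of the first components. -/
theorem fst_mem {S : Submodule ℚ (Module.End ℚ A.H1)}
    {p : Matrix (Fin (2 * g)) (Fin (2 * g)) ℂ × Matrix (Fin n) (Fin n) ℂ} (hp : p ∈ GG B S) :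
    p.1 ∈ Submodule.span ℂ {y | ∃ X ∈ S, y = cq (mv X)} := by
  induction hp using Submodule.span_induction with
  | mem p hp =>
    obtain ⟨X, hX, M, hM, rfl⟩ := hp
    exact Submodule.subset_span ⟨X, hX, rfl⟩
  | zero => exact Submodule.zero_mem _
  | add a b _ _ ha hb => exact Submodule.add_mem _ ha hb
  | smul c a _ ha => exact Submodule.smul_mem _ c ha

/-- A complex matrix which commutes with a full subalgebra commutes with the Lie algebra. -/
theorem full_comm {𝔮 : Submodule ℚ (Module.End ℚ A.H1)} (hq : A.Full 𝔮)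
    {y : Matrix (Fin (2 * g)) (Fin (2 * g)) ℂ} (hy : ∀ X ∈ 𝔮, y * cq (mv X) = cq (mv X) * y)
    {X : Module.End ℚ A.H1} (hX : X ∈ A.NA) : y * cq (mv X) = cq (mv X) * y := by
  have h1 := mem_span_cent (S := {M | ∃ X ∈ 𝔮, M = mv X}) (x := y) (by
    rintro _ ⟨X, hX, rfl⟩
    exact hy X hX)
  refine Submodule.span_induction (p := fun K _ => K * cq (mv X) = cq (mv X) * K) ?_ ?_ ?_ ?_ h1
  · rintro _ ⟨E, hE, rfl⟩
    obtain ⟨Q, rfl⟩ := mv_surj (A := A) E
    have h2 : ∀ Z ∈ 𝔮, Z * Q = Q * Z := fun Z hZ => by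
      apply mv_inj
      rw [mv_mul, mv_mul]
      exact (hE _ ⟨Z, hZ, rfl⟩).symm
    have h3 := hq.comm Q h2 X hX
    rw [← cq_mul, ← cq_mul, ← mv_mul, ← mv_mul, h3]
  · rw [zero_mul, mul_zero]
  · intro a b _ _ ha hb
    rw [add_mul, mul_add, ha, hb]
  · intro c a _ ha
    rw [smul_mul_assoc, mul_smul_comm, ha]

/-- **Main theorem** on centralizers: an element of the Hodge group which commutes with the action of
a full subalgebra commutes with the action of the Lie algebra. -/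
theorem cen_main (h : Mot w B P) {𝔮 : Submodule ℚ (Module.End ℚ A.H1)} (hq : A.Full 𝔮)
    {x : GL (Fin n) ℂ} (hx : x ∈ LG B)
    (hc : ∀ X ∈ 𝔮, ∀ M, Rel B X M → (x : Matrix (Fin n) (Fin n) ℂ) * (cq M)ᵀ = (cq M)ᵀ * x)
    {X : Module.End ℚ A.H1} (hX : X ∈ A.NA) {M : Matrix (Fin n) (Fin n) ℚ} (hM : Rel B X M) :
    (x : Matrix (Fin n) (Fin n) ℂ) * (cq M)ᵀ = (cq M)ᵀ * x := by
  have hk : kerM B ≤ A.NA := fun X hX => hX.1
  obtain ⟨y, hy, -⟩ := hx
  -- the conjugation on the complement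
  have key : ∀ X ∈ perpI A (kerM B), ∀ M, Rel B X M →
      ((y : Matrix (Fin (2 * g)) (Fin (2 * g)) ℂ) * cq (mv X) = cq (mv X) * y ↔
        (x : Matrix (Fin n) (Fin n) ℂ) * (cq M)ᵀ = (cq M)ᵀ * x) := by
    intro X hX M hM
    have h1 := Submodule.sub_mem _ (hy.conj _ (mem_GG hX hM)) (mem_GG hX hM)
    have e1 : ((y : Matrix (Fin (2 * g)) (Fin (2 * g)) ℂ), (x : Matrix (Fin n) (Fin n) ℂ)) *
        pr X M * (((y⁻¹ : GL (Fin (2 * g)) ℂ) : Matrix (Fin (2 * g)) (Fin (2 * g)) ℂ),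
        ((x⁻¹ : GL (Fin n) ℂ) : Matrix (Fin n) (Fin n) ℂ)) - pr X M =
        ((y : Matrix (Fin (2 * g)) (Fin (2 * g)) ℂ) * cq (mv X) *
          ((y⁻¹ : GL (Fin (2 * g)) ℂ) : Matrix (Fin (2 * g)) (Fin (2 * g)) ℂ) - cq (mv X),
        (x : Matrix (Fin n) (Fin n) ℂ) * (cq M)ᵀ * ((x⁻¹ : GL (Fin n) ℂ) :
          Matrix (Fin n) (Fin n) ℂ) - (cq M)ᵀ) := rfl
    rw [e1] at h1
    have e2 : ∀ {a : ℕ} (z : GL (Fin a) ℂ) (N : Matrix (Fin a) (Fin a) ℂ),
        (z : Matrix (Fin a) (Fin a) ℂ) * N * ((z⁻¹ : GL (Fin a) ℂ) : Matrix (Fin a) (Fin a) ℂ) -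
          N = 0 ↔ (z : Matrix (Fin a) (Fin a) ℂ) * N = N * z := by
      intro a z N
      rw [sub_eq_zero]
      constructor
      · intro h2
        conv_rhs => rw [← h2]
        rw [mul_assoc, Units.inv_mul, mul_one]
      · intro h2
        rw [h2, mul_assoc, Units.mul_inv, mul_one]
    rw [← e2, ← e2]
    exact ⟨fun h2 => GG_fst h.li h1 h2, fun h2 => GG_snd h h1 h2⟩
  -- `y` commutes with `𝔮`
  have h1 : ∀ X ∈ 𝔮, (y : Matrix (Fin (2 * g)) (Fin (2 * g)) ℂ) * cq (mv X) = cq (mv X) * y := by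
    intro X hX
    obtain ⟨M, hM⟩ := h.st X (hq.le hX)
    obtain ⟨K, hK, X', hX', rfl⟩ := perpI_dec hk (kerM_ideal h) (hq.le hX)
    obtain ⟨M', hM'⟩ := h.st X' (perpI_le _ hX')
    have h2 := (hK.2.add hM').uniq h.li hM
    rw [zero_add] at h2
    have h3 := (key X' hX' M' hM').2 (by
      rw [h2]
      exact hc _ hX M hM)
    rw [mv_add, cq_add, mul_add, add_mul, hy.ker K hK, h3]
  obtain ⟨K, hK, X', hX', rfl⟩ := perpI_dec hk (kerM_ideal h) hX
  obtain ⟨M', hM'⟩ := h.st X' (perpI_le _ hX')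
  have h2 := (hK.2.add hM').uniq h.li hM
  rw [zero_add] at h2
  rw [← h2]
  exact (key X' hX' M' hM').1 (full_comm hq h1 (perpI_le _ hX'))

end Pool.Agent.N208.AD
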