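import Pool.Agent.N208.AD.Cen

set_option autoImplicit false
set_option linter.unusedSectionVars false

/-!
# The centralizer of a group which contains the periods: groups
-/

open Module Function TensorProduct Matrix

noncomputable section

namespace Pool.Agent.N208.AD

open Pool.Agent.Y102 Pool.Agent.W516.DR Pool.Agent.H204R3.GP Pool.Agent.W516.KC
  Pool.Agent.H204R3.SP Pool.Agent.TH119.MX Pool.Agent.R917 Pool.Agent.N208.AM

variable {g : ℕ} {A : AbVar g} {s n : ℕ} {r : Fin s → ℕ} {B : Fin n → Ten A r} {w : Fin s → ℤ}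
  {P : Matrix (Fin n) (Fin n) ℂ} {Wt : Matrix (Fin n) (Fin n) ℚ}

/-- The group generated by the exponentials. -/
def HG (B : Fin n → Ten A r) : Subgroup (GL (Fin n) ℂ) :=
  Subgroup.closure {x | ∃ Z ∈ Submodule.span ℂ {y | ∃ X ∈ A.NA, ∃ M, Rel B X M ∧ y = cq M},
    (x : Matrix (Fin n) (Fin n) ℂ) = NormedSpace.exp Z}

theorem exp_neg_val {x : GL (Fin n) ℂ} {Z : Matrix (Fin n) (Fin n) ℂ}
    (h : (x : Matrix (Fin n) (Fin n) ℂ) = NormedSpace.exp Z) : x = eG Z := Units.ext h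

theorem tr_mem (h : Mot w B P) {x : GL (Fin n) ℂ} (hx : x ∈ HG B) :
    ∃ y ∈ LG B, (y : Matrix (Fin n) (Fin n) ℂ) = (x : Matrix (Fin n) (Fin n) ℂ)ᵀ := by
  induction hx using Subgroup.closure_induction with
  | mem x hx =>
    obtain ⟨Z, hZ, hxZ⟩ := hx
    refine ⟨eG Zᵀ, eG_mem_LG h ?_, ?_⟩
    · clear hxZ
      induction hZ using Submodule.span_induction with
      | mem Z hZ =>
        obtain ⟨X, hX, M, hM, rfl⟩ := hZ
        exact Submodule.subset_span ⟨X, hX, M, hM, rfl⟩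
      | zero => rw [Matrix.transpose_zero]; exact Submodule.zero_mem _
      | add a b _ _ ha hb => rw [Matrix.transpose_add]; exact Submodule.add_mem _ ha hb
      | smul c a _ ha => rw [Matrix.transpose_smul]; exact Submodule.smul_mem _ c ha
    · rw [eG_val, hxZ, Matrix.exp_transpose]
  | one => exact ⟨1, Subgroup.one_mem _, by rw [Units.val_one, Matrix.transpose_one]⟩
  | mul x y _ _ hx hy =>
    obtain ⟨x', h1, h2⟩ := hx
    obtain ⟨y', h3, h4⟩ := hy
    exact ⟨y' * x', Subgroup.mul_mem _ h3 h1, by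
      rw [Units.val_mul, Units.val_mul, h2, h4, Matrix.transpose_mul]⟩
  | inv x _ hx =>
    obtain ⟨x', h1, h2⟩ := hx
    refine ⟨x'⁻¹, Subgroup.inv_mem _ h1, ?_⟩
    have h3 : ((x⁻¹ : GL (Fin n) ℂ) : Matrix (Fin n) (Fin n) ℂ)ᵀ * (x' : Matrix (Fin n) (Fin n) ℂ) =
        1 := by
      rw [h2, ← Matrix.transpose_mul, Units.mul_inv, Matrix.transpose_one]
    calc ((x'⁻¹ : GL (Fin n) ℂ) : Matrix (Fin n) (Fin n) ℂ)
        = ((x⁻¹ : GL (Fin n) ℂ) : Matrix (Fin n) (Fin n) ℂ)ᵀ * x' * (x'⁻¹ : GL (Fin n) ℂ) := by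
          rw [h3, one_mul]
      _ = ((x⁻¹ : GL (Fin n) ℂ) : Matrix (Fin n) (Fin n) ℂ)ᵀ := by
          rw [mul_assoc, Units.mul_inv, mul_one]

/-- The weights commute with the group. -/
theorem HG_wt (h : Mot w B P) (hW : WRel w B Wt) {x : GL (Fin n) ℂ} (hx : x ∈ HG B) :
    x ∈ cent {Wt} := by
  have h1 : HG B ≤ cent {Wt} := by
    unfold HG
    rw [Subgroup.closure_le]
    rintro x ⟨Z, hZ, hxZ⟩ M hM
    rw [Set.mem_singleton_iff] at hM
    rw [hM, hxZ]
    refine comm_exp ?_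
    clear hxZ
    induction hZ using Submodule.span_induction with
    | mem Z hZ =>
      obtain ⟨X, hX, M', hM', rfl⟩ := hZ
      rw [← cq_mul, ← cq_mul, WRel.comm h.li hM' hW]
    | zero => rw [zero_mul, mul_zero]
    | add a b _ _ ha hb => rw [add_mul, mul_add, ha, hb]
    | smul c a _ ha => rw [smul_mul_assoc, mul_smul_comm, ha]
  exact h1 hx

/-- A matrix which commutes with the exponentials of the multiples commutes with the matrix. -/
theorem comm_of_exp {x : GL (Fin n) ℂ} {K : Matrix (Fin n) (Fin n) ℂ}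
    (h : ∀ t : ℂ, (x : Matrix (Fin n) (Fin n) ℂ) * NormedSpace.exp (t • K) =
      NormedSpace.exp (t • K) * x) :
    (x : Matrix (Fin n) (Fin n) ℂ) * K = K * x := by
  have h0 : ∀ i j, ((x : Matrix (Fin n) (Fin n) ℂ) * K * ((x⁻¹ : GL (Fin n) ℂ) :
      Matrix (Fin n) (Fin n) ℂ)) i j = K i j := by
    intro i j
    have h1 : HasDerivAt (fun t : ℂ => ∑ k, ((x : Matrix (Fin n) (Fin n) ℂ) *
        NormedSpace.exp (t • K)) i k * ((x⁻¹ : GL (Fin n) ℂ) : Matrix (Fin n) (Fin n) ℂ) k j)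
        (∑ k, ((x : Matrix (Fin n) (Fin n) ℂ) * NormedSpace.exp ((0 : ℂ) • K) * K) i k *
          ((x⁻¹ : GL (Fin n) ℂ) : Matrix (Fin n) (Fin n) ℂ) k j) 0 :=
      HasDerivAt.fun_sum fun k _ => (hasDerivAt_entry (x : Matrix (Fin n) (Fin n) ℂ) K i k
        0).mul_const _
    have h2 := hasDerivAt_entry (1 : Matrix (Fin n) (Fin n) ℂ) K i j 0
    have h3 : (fun t : ℂ => ∑ k, ((x : Matrix (Fin n) (Fin n) ℂ) *
        NormedSpace.exp (t • K)) i k * ((x⁻¹ : GL (Fin n) ℂ) : Matrix (Fin n) (Fin n) ℂ) k j) =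
        fun t : ℂ => ((1 : Matrix (Fin n) (Fin n) ℂ) * NormedSpace.exp (t • K)) i j := by
      funext t
      rw [← Matrix.mul_apply, h t, mul_assoc, Units.mul_inv, mul_one, one_mul]
    rw [h3] at h1
    have h4 := h1.unique h2
    rw [← Matrix.mul_apply, zero_smul, NormedSpace.exp_zero, mul_one, one_mul, one_mul] at h4
    exact h4
  have h1 : (x : Matrix (Fin n) (Fin n) ℂ) * K * ((x⁻¹ : GL (Fin n) ℂ) :
      Matrix (Fin n) (Fin n) ℂ) = K := by
    ext i j
    exact h0 i j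
  conv_rhs => rw [← h1]
  rw [mul_assoc, Units.inv_mul, mul_one]

/-- **The centralizer of a group which contains the periods.** -/
theorem cen_group (h : Mot w B P) (hW : WRel w B Wt) {G : Subgroup (GL (Fin n) ℂ)}
    (hG : PtM P {M | ∃ x ∈ G, (x : Matrix (Fin n) (Fin n) ℂ) = M}) {x : GL (Fin n) ℂ}
    (hx : x ∈ HG B) (hc : ∀ y ∈ G, x * y = y * x) {X : Module.End ℚ A.H1} (hX : X ∈ A.NA)
    {M : Matrix (Fin n) (Fin n) ℚ} (hM : Rel B X M) :
    (x : Matrix (Fin n) (Fin n) ℂ) * cq M = cq M * x := by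
  obtain ⟨y, hy, hyx⟩ := tr_mem h hx
  have hq := qM_full h hW hG
  have h1 := cen_main h hq hy (fun X hX M hM => by
    obtain ⟨-, M', hM', c, hc'⟩ := hX
    have e := hM'.uniq h.li hM
    subst e
    have h2 : ∀ t : ℂ, (x : Matrix (Fin n) (Fin n) ℂ) * NormedSpace.exp (t • cq (M' + c • Wt)) =
        NormedSpace.exp (t • cq (M' + c • Wt)) * x := by
      intro t
      obtain ⟨z, hz, hz'⟩ := Pool.Agent.R917.exp_mem hG.grp (fun d => (hc' d).smul t)
      have h3 := congrArg (fun u : GL (Fin n) ℂ => (u : Matrix (Fin n) (Fin n) ℂ)) (hc z hz)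
      rw [Units.val_mul, Units.val_mul, hz'] at h3
      exact h3
    have h3 := comm_of_exp h2
    have h4 := HG_wt h hW hx Wt rfl
    have h5 : (x : Matrix (Fin n) (Fin n) ℂ) * cq M' = cq M' * x := by
      rw [cq_add, cq_smul, mul_add, add_mul, mul_smul_comm, smul_mul_assoc, h4] at h3
      exact add_right_cancel h3
    rw [hyx, ← Matrix.transpose_mul, ← Matrix.transpose_mul, h5]) hX hM
  rw [hyx, ← Matrix.transpose_mul, ← Matrix.transpose_mul] at h1
  exact (Matrix.transpose_injective h1).symm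

/-- An element of the group which commutes with the Lie algebra commutes with the elements of an
algebraic group which contains the image of the Deligne torus. -/
theorem cen_torus (h : Mot w B P) (hW : WRel w B Wt) :
    ∃ G₁ : Subgroup (GL (Fin n) ℂ), (∃ I : Set (MvPolynomial (Fin n × Fin n) ℚ),
      ∀ x : GL (Fin n) ℂ, x ∈ G₁ ↔ ∀ p ∈ I, MvPolynomial.aeval
        (fun b : Fin n × Fin n => (x : Matrix (Fin n) (Fin n) ℂ) b.1 b.2) p = 0) ∧
      (∀ z : ℂ, z ≠ 0 → ∃ x ∈ G₁, HRel w B z (x : Matrix (Fin n) (Fin n) ℂ)) ∧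
      ∀ x ∈ HG B, (∀ X ∈ A.NA, ∀ M, Rel B X M →
        (x : Matrix (Fin n) (Fin n) ℂ) * cq M = cq M * x) → ∀ y ∈ G₁, x * y = y * x := by
  obtain ⟨N, hN, hN'⟩ := exists_J h
  let S := opS B Wt
  let S' : Set (Matrix (Fin n) (Fin n) ℚ) := {E | ∀ M ∈ S, E * M = M * E}
  obtain ⟨I', hI'⟩ := cent_alg S'
  refine ⟨cent S', ⟨I', hI'⟩, fun z hz => ?_, ?_⟩
  · refine ⟨eG (KK Wt N z), fun E hE => ?_, hrel_exp hW hN hz⟩
    refine comm_exp ?_
    have h1 := KK_mem (S := S) (Or.inl rfl)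
      (fun X hX M hM => Or.inr ⟨X, hX, hM⟩) hN' z
    refine Submodule.span_induction (p := fun K _ => K * cq E = cq E * K) ?_ ?_ ?_ ?_ h1
    · rintro _ ⟨M', hM', rfl⟩
      rw [← cq_mul, ← cq_mul, hE M' hM']
    · rw [zero_mul, mul_zero]
    · intro a b _ _ ha hb
      rw [add_mul, mul_add, ha, hb]
    · intro c a _ ha
      rw [smul_mul_assoc, mul_smul_comm, ha]
  · intro x hx hc y hy
    apply Units.ext
    rw [Units.val_mul, Units.val_mul]
    have h1 := mem_span_cent (S := S) (x := (x : Matrix (Fin n) (Fin n) ℂ)) (by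
      rintro M (rfl | ⟨X, hX, hM⟩)
      · exact HG_wt h hW hx _ rfl
      · exact hc X hX M hM)
    refine Submodule.span_induction
      (p := fun (K : Matrix (Fin n) (Fin n) ℂ) _ => K * (y : Matrix (Fin n) (Fin n) ℂ) = y * K)
      ?_ ?_ ?_ ?_ h1
    · rintro _ ⟨E, hE, rfl⟩
      exact (hy E hE).symm
    · rw [zero_mul, mul_zero]
    · intro a b _ _ ha hb
      rw [add_mul, mul_add, ha, hb]
    · intro c a _ ha
      rw [smul_mul_assoc, mul_smul_comm, ha]

end Pool.Agent.N208.AD
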