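import Pool.Agent.N208.AM.MainB

set_option autoImplicit false
set_option linter.unusedSectionVars false

/-!
# Ideals of the Lie algebra of the Hodge group and their complements
-/

open Module Function TensorProduct Matrix

noncomputable section

namespace Pool.Agent.N208.AD

open Pool.Agent.Y102 Pool.Agent.W516.DR Pool.Agent.H204R3.GP Pool.Agent.W516.KC
  Pool.Agent.H204R3.SP Pool.Agent.TH119.MX Pool.Agent.R917 Pool.Agent.N208.AM

variable {g : ℕ} {A : AbVar g}

/-- Positivity of the trace form on real endomorphisms. -/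
theorem tr_adj_pos {Y Y' : Module.End ℝ (Fin g → ℂ)}
    (h : ∀ u v, A.PF (Y u) v = A.PF u (Y' v)) (h0 : Y ≠ 0) :
    0 < LinearMap.trace ℝ (Fin g → ℂ) (Y * Y') := by
  have h1 : LinearMap.trace ℝ (Fin g → ℂ) (Y * Y') =
      ∑ i, A.PF (Y' (onb A i)) (Y' (onb A i)) := by
    rw [LinearMap.trace_eq_matrix_trace ℝ (onb A), Matrix.trace]
    refine Finset.sum_congr rfl fun i _ => ?_
    rw [Matrix.diag_apply, LinearMap.toMatrix_apply, onb_repr, Module.End.mul_apply, h]
  have h2 : ∃ i, Y' (onb A i) ≠ 0 := by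
    by_contra hcon
    push Not at hcon
    apply h0
    refine LinearMap.ext fun u => ?_
    have h3 : Y' = 0 := (onb A).ext fun i => by rw [hcon i, LinearMap.zero_apply]
    by_contra hne
    have h4 := A.PF_pos hne
    rw [LinearMap.zero_apply] at hne
    rw [h, h3, LinearMap.zero_apply, map_zero] at h4
    exact lt_irrefl _ h4
  obtain ⟨i, hi⟩ := h2
  rw [h1]
  refine Finset.sum_pos' (fun j _ => ?_) ⟨i, Finset.mem_univ _, A.PF_pos hi⟩
  by_cases hj : Y' (onb A j) = 0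
  · rw [hj, map_zero]
  · exact (A.PF_pos hj).le

/-- The real span of a space of rational endomorphisms. -/
def spE (A : AbVar g) (S : Set (Module.End ℚ A.H1)) : Submodule ℝ (Module.End ℝ (Fin g → ℂ)) :=
  Submodule.span ℝ {Y | ∃ X ∈ S, Y = A.ext X}

theorem mem_spE {S : Set (Module.End ℚ A.H1)} {X : Module.End ℚ A.H1} (hX : X ∈ S) :
    A.ext X ∈ spE A S := Submodule.subset_span ⟨X, hX, rfl⟩

theorem ext_mul (X Y : Module.End ℚ A.H1) : A.ext (X * Y) = A.ext X * A.ext Y := by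
  refine A.ext_per fun u => ?_
  rw [A.ext_apply, Module.End.mul_apply, Module.End.mul_apply, A.ext_apply, A.ext_apply]

theorem per_smul (c : ℚ) (u : A.H1) : A.per (c • u) = (c : ℝ) • A.per u := by
  apply A.lam.repr.injective
  ext j
  rw [A.repr_per, map_smul, Finsupp.smul_apply, A.repr_per, smul_eq_mul, Pi.smul_apply,
    smul_eq_mul, Rat.cast_mul]

theorem ext_add (X Y : Module.End ℚ A.H1) : A.ext (X + Y) = A.ext X + A.ext Y := by
  refine A.ext_per fun u => ?_
  rw [A.ext_apply, LinearMap.add_apply, LinearMap.add_apply, A.ext_apply, A.ext_apply, map_add]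

theorem ext_smul (c : ℚ) (X : Module.End ℚ A.H1) : A.ext (c • X) = (c : ℝ) • A.ext X := by
  refine A.ext_per fun u => ?_
  rw [A.ext_apply, LinearMap.smul_apply, LinearMap.smul_apply, A.ext_apply, per_smul]

theorem ext_sub (X Y : Module.End ℚ A.H1) : A.ext (X - Y) = A.ext X - A.ext Y := by
  refine A.ext_per fun u => ?_
  rw [A.ext_apply, LinearMap.sub_apply, LinearMap.sub_apply, A.ext_apply, A.ext_apply, map_sub]

theorem ext_zero : A.ext (0 : Module.End ℚ A.H1) = 0 := by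
  refine A.ext_per fun u => ?_
  rw [A.ext_apply, LinearMap.zero_apply, LinearMap.zero_apply, map_zero]

theorem trace_ext (X : Module.End ℚ A.H1) :
    LinearMap.trace ℝ (Fin g → ℂ) (A.ext X) = ((LinearMap.trace ℚ A.H1 X : ℚ) : ℝ) :=
  (A.trace_real fun w => A.ext_apply X w).symm

theorem JJ_mem : (AbVar.JJ : Module.End ℝ (Fin g → ℂ)) ∈
    spE A (A.NA : Set (Module.End ℚ A.H1)) := by
  obtain ⟨t, ht⟩ := JJ_eq (A := A)
  rw [ht]
  exact Submodule.sum_mem _ fun k _ => Submodule.smul_mem _ _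
    (mem_spE (S := (A.NA : Set (Module.End ℚ A.H1))) (A.MA_le_NA (A.J_mem _)))

/-- Brackets of the real spans. -/
theorem spE_br {S T U : Submodule ℚ (Module.End ℚ A.H1)}
    (h : ∀ X ∈ S, ∀ Y ∈ T, X * Y - Y * X ∈ U) :
    ∀ x ∈ spE A (S : Set (Module.End ℚ A.H1)), ∀ y ∈ spE A (T : Set (Module.End ℚ A.H1)),
      x * y - y * x ∈ spE A (U : Set (Module.End ℚ A.H1)) := by
  intro x hx y hy
  induction hx using Submodule.span_induction with
  | mem x hx =>
    obtain ⟨X, hX, rfl⟩ := hx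
    induction hy using Submodule.span_induction with
    | mem y hy =>
      obtain ⟨Y, hY, rfl⟩ := hy
      rw [← ext_mul, ← ext_mul, ← ext_sub]
      exact mem_spE (h X hX Y hY)
    | zero => rw [mul_zero, zero_mul, sub_zero]; exact Submodule.zero_mem _
    | add a b _ _ ha hb =>
      have e : A.ext X * (a + b) - (a + b) * A.ext X =
          (A.ext X * a - a * A.ext X) + (A.ext X * b - b * A.ext X) := by
        rw [mul_add, add_mul]
        abel
      rw [e]
      exact Submodule.add_mem _ ha hb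
    | smul c a _ ha =>
      rw [mul_smul_comm, smul_mul_assoc, ← smul_sub]
      exact Submodule.smul_mem _ c ha
  | zero => rw [mul_zero, zero_mul, sub_zero]; exact Submodule.zero_mem _
  | add a b _ _ ha hb =>
    have e : (a + b) * y - y * (a + b) = (a * y - y * a) + (b * y - y * b) := by
      rw [mul_add, add_mul]
      abel
    rw [e]
    exact Submodule.add_mem _ ha hb
  | smul c a _ ha =>
    rw [mul_smul_comm, smul_mul_assoc, ← smul_sub]
    exact Submodule.smul_mem _ c ha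

/-- The adjoint for the positive definite form. -/
theorem adj_spE {Y : Module.End ℝ (Fin g → ℂ)}
    (hY : Y ∈ spE A (A.NA : Set (Module.End ℚ A.H1))) (u v : Fin g → ℂ) :
    A.PF (Y u) v = A.PF u ((-th Y) v) := by
  induction hY using Submodule.span_induction with
  | mem Y hY =>
    obtain ⟨X, hX, rfl⟩ := hY
    have hsk : ∀ u v, A.E (A.ext X u) v = -A.E u (A.ext X v) := by
      have h2 : A.E.comp (A.ext X) = -(A.E.flip.comp (A.ext X)).flip := by
        refine A.ext_per fun u => A.ext_per fun v => ?_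
        change A.E (A.ext X (A.per u)) (A.per v) = -A.E (A.per u) (A.ext X (A.per v))
        rw [A.ext_apply, A.ext_apply, ← A.om_coe, ← A.om_coe, ← Rat.cast_neg]
        congr 1
        linear_combination A.NA_skew hX u v
      intro u v
      exact congrArg (fun F : (Fin g → ℂ) →ₗ[ℝ] (Fin g → ℂ) →ₗ[ℝ] ℝ => F u v) h2
    rw [th_eq, neg_neg, A.PF_apply, A.PF_apply, hsk, Module.End.mul_apply, Module.End.mul_apply,
      AbVar.JJ_apply, AbVar.JJ_apply, smul_smul, Complex.I_mul_I, neg_one_smul, map_neg]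
  | zero =>
    rw [th_eq]
    simp
  | add a b _ _ ha hb =>
    have h3 : -th (a + b) = -th a + -th b := by
      rw [th_eq, th_eq, th_eq, mul_add, add_mul]
      abel
    rw [h3, LinearMap.add_apply, LinearMap.add_apply, map_add, map_add, LinearMap.add_apply, ha, hb]
  | smul c a _ ha =>
    have h3 : -th (c • a) = c • -th a := by
      rw [th_eq, th_eq, mul_smul_comm, smul_mul_assoc]
      module
    rw [h3, LinearMap.smul_apply, LinearMap.smul_apply, map_smul, map_smul, LinearMap.smul_apply,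
      ha]

/-- A real ideal is stable under the conjugation by the complex structure. -/
theorem th_mem {S : Submodule ℝ (Module.End ℝ (Fin g → ℂ))}
    (hS : ∀ x ∈ spE A (A.NA : Set (Module.End ℚ A.H1)), ∀ y ∈ S, x * y - y * x ∈ S)
    {Y : Module.End ℝ (Fin g → ℂ)} (hY : Y ∈ S) : th Y ∈ S := by
  have h1 := hS _ JJ_mem _ hY
  exact S.add_mem hY (S.smul_mem _ (hS _ JJ_mem _ h1))

/-- The trace form is not degenerate on ideals. -/
theorem trace_ideal {𝔨 : Submodule ℚ (Module.End ℚ A.H1)} (hk : 𝔨 ≤ A.NA)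
    (hi : ∀ X ∈ A.NA, ∀ Y ∈ 𝔨, X * Y - Y * X ∈ 𝔨) : Pool.Agent.W516.KC2.TraceNondeg 𝔨 := by
  intro X hX htr
  by_contra hne
  have h0 : A.ext X ≠ 0 := by
    intro h0
    apply hne
    refine LinearMap.ext fun u => A.per_inj ?_
    rw [← A.ext_apply, h0, LinearMap.zero_apply, LinearMap.zero_apply, map_zero]
  have h1 := tr_adj_pos (adj_spE (mem_spE (hk hX))) h0
  have h2 : th (A.ext X) ∈ spE A (𝔨 : Set (Module.End ℚ A.H1)) :=
    th_mem (spE_br hi) (mem_spE hX)
  have h3 : ∀ Z ∈ spE A (𝔨 : Set (Module.End ℚ A.H1)),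
      LinearMap.trace ℝ (Fin g → ℂ) (A.ext X * Z) = 0 := by
    intro Z hZ
    induction hZ using Submodule.span_induction with
    | mem Z hZ =>
      obtain ⟨Y, hY, rfl⟩ := hZ
      rw [← ext_mul, trace_ext, htr Y hY, Rat.cast_zero]
    | zero => rw [mul_zero, map_zero]
    | add a b _ _ ha hb => rw [mul_add, map_add, ha, hb, add_zero]
    | smul c a _ ha => rw [mul_smul_comm, map_smul, ha, smul_zero]
  have h4 : A.ext X * -th (A.ext X) = (-1 : ℝ) • (A.ext X * th (A.ext X)) :=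
    LinearMap.ext fun u => by
      rw [Module.End.mul_apply, LinearMap.neg_apply, map_neg, LinearMap.smul_apply,
        Module.End.mul_apply, neg_one_smul]
  rw [h4, map_smul, h3 _ h2, smul_zero] at h1
  exact lt_irrefl _ h1

/-- The orthogonal complement of an ideal. -/
def perpI (A : AbVar g) (𝔨 : Submodule ℚ (Module.End ℚ A.H1)) :
    Submodule ℚ (Module.End ℚ A.H1) where
  carrier := {X | X ∈ A.NA ∧ ∀ K ∈ 𝔨, LinearMap.trace ℚ A.H1 (X * K) = 0}
  zero_mem' := ⟨A.NA.zero_mem, fun K _ => by rw [zero_mul, map_zero]⟩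
  add_mem' := by
    rintro X Y ⟨hX, h1⟩ ⟨hY, h2⟩
    exact ⟨A.NA.add_mem hX hY, fun K hK => by rw [add_mul, map_add, h1 K hK, h2 K hK, add_zero]⟩
  smul_mem' := by
    rintro c X ⟨hX, h1⟩
    exact ⟨A.NA.smul_mem c hX, fun K hK => by rw [smul_mul_assoc, map_smul, h1 K hK, smul_zero]⟩

variable {𝔨 : Submodule ℚ (Module.End ℚ A.H1)}

theorem tr_br (a b c : Module.End ℚ A.H1) : LinearMap.trace ℚ A.H1 ((a * b - b * a) * c) =
    LinearMap.trace ℚ A.H1 (a * (b * c - c * b)) := by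
  rw [sub_mul, mul_sub, map_sub, map_sub, mul_assoc a b c, mul_assoc b a c,
    LinearMap.trace_mul_comm ℚ b (a * c), mul_assoc a c b]

theorem perpI_ideal (hi : ∀ X ∈ A.NA, ∀ Y ∈ 𝔨, X * Y - Y * X ∈ 𝔨) :
    ∀ X ∈ A.NA, ∀ Y ∈ perpI A 𝔨, X * Y - Y * X ∈ perpI A 𝔨 := by
  rintro X hX Y ⟨hY, h1⟩
  refine ⟨A.NA_bracket hX hY, fun K hK => ?_⟩
  have h2 := tr_br Y X K
  rw [h1 _ (hi X hX K hK), sub_mul, map_sub] at h2
  rw [sub_mul, map_sub]
  linear_combination -h2

/-- The complement commutes with the ideal. -/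
theorem perpI_comm (hk : 𝔨 ≤ A.NA) (hi : ∀ X ∈ A.NA, ∀ Y ∈ 𝔨, X * Y - Y * X ∈ 𝔨)
    {X K : Module.End ℚ A.H1} (hX : X ∈ perpI A 𝔨) (hK : K ∈ 𝔨) : X * K = K * X := by
  rw [← sub_eq_zero]
  refine trace_ideal hk hi _ (hi X hX.1 K hK) fun K' hK' => ?_
  rw [tr_br]
  exact hX.2 _ (hi K (hk hK) K' hK')

/-- The complement is a complement. -/
theorem perpI_dec (hk : 𝔨 ≤ A.NA) (hi : ∀ X ∈ A.NA, ∀ Y ∈ 𝔨, X * Y - Y * X ∈ 𝔨)
    {X : Module.End ℚ A.H1} (hX : X ∈ A.NA) : ∃ K ∈ 𝔨, ∃ X' ∈ perpI A 𝔨, X = K + X' := by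
  let f : Module.Dual ℚ 𝔨 :=
    ((LinearMap.trace ℚ A.H1).comp (LinearMap.mulLeft ℚ X)).comp 𝔨.subtype
  let K := (Pool.Agent.W516.KC2.trE 𝔨 (trace_ideal hk hi)).symm f
  have hK : ∀ K' : 𝔨, LinearMap.trace ℚ A.H1 (K.1 * K'.1) = f K' := fun K' =>
    Pool.Agent.W516.KC2.trE_symm 𝔨 (trace_ideal hk hi) f K'
  refine ⟨K.1, K.2, X - K.1, ⟨A.NA.sub_mem hX (hk K.2), fun K' hK' => ?_⟩, by abel⟩
  rw [sub_mul, map_sub, hK ⟨K', hK'⟩, sub_eq_zero]
  rfl

theorem perpI_inf (hk : 𝔨 ≤ A.NA) (hi : ∀ X ∈ A.NA, ∀ Y ∈ 𝔨, X * Y - Y * X ∈ 𝔨)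
    {X : Module.End ℚ A.H1} (h1 : X ∈ 𝔨) (h2 : X ∈ perpI A 𝔨) : X = 0 :=
  trace_ideal hk hi X h1 h2.2

end Pool.Agent.N208.AD
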